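import Mathlib
import Pool.Agent.Lib.H52K.S5

namespace Pool.Agent.Results.MP_a7dd6b_lc.SufficientStatistic

/-- Algorithmic Ahlswede-Koerner lemma for pairs `x, y` (stochastic or not) and all strings `z` of
any complexity such that some sufficient statistic of the pair `(x, y)` (a finite list `L` of pairs
which contains `(x, y)` with `KS(L) + log |L| ≤ KS(x, y) + s`) is simple given `x, z` and given
`y, z`. As in the problem, `K x z` is the plain conditional complexity `KS(x | z)` (least value of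
`2 |c| + |w| + 1` over all programs `c` and strings `w` with `c (w, z) = x`). -/
theorem result :
    ∀ K : ℕ → ℕ → ℕ,
      (∀ x z : ℕ, K x z = sInf {k : ℕ | ∃ (c : Nat.Partrec.Code) (w : ℕ),
          c.eval (Nat.pair w z) = Part.some x ∧
          2 * Nat.size (Encodable.encode c) + Nat.size w + 1 ≤ k}) →
      ∃ C : ℕ, ∀ (n s x y z : ℕ) (L : List ℕ), K x 0 ≤ n → K y 0 ≤ n → Nat.pair x y ∈ L →
        K (Encodable.encode L) 0 + Nat.log 2 L.length ≤ K (Nat.pair x y) 0 + s →
        K (Encodable.encode L) (Nat.pair x z) ≤ s → K (Encodable.encode L) (Nat.pair y z) ≤ s →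
        ∃ z' : ℕ,
          |(K x z : ℤ) - (K x z' : ℤ)| ≤ ((C * Nat.log 2 n + C * s + C : ℕ) : ℤ) ∧
          |(K y z : ℤ) - (K y z' : ℤ)| ≤ ((C * Nat.log 2 n + C * s + C : ℕ) : ℤ) ∧
          |(K (Nat.pair x y) z : ℤ) - (K (Nat.pair x y) z' : ℤ)|
              ≤ ((C * Nat.log 2 n + C * s + C : ℕ) : ℤ) ∧
          K z' (Nat.pair x y) ≤ C * Nat.log 2 n + C * s + C := by
  intro K hK
  have hKS : K = Pool.Agent.Lib.H52K.KS := by
    funext x z
    exact hK x z
  subst hKS
  exact Pool.Agent.Lib.H52K.main3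

end Pool.Agent.Results.MP_a7dd6b_lc.SufficientStatistic
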